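import Pool.Agent.N929.EZ.Stm
import Pool.Agent.N929.EY.CLW

/-!
# Sizes of the classes of one window (adapted from `Pool/Agent/N929/EY/CLW.lean`)
-/

set_option autoImplicit false
set_option linter.unusedVariables false

namespace Pool.Agent.N9.EZ

open Pool.Agent.H976R2 Pool.Agent.H976R2.Dir Finset
open Pool.Agent.N929.EX Pool.Agent.N929.EY Pool.Agent.N929.EZ
open scoped Classical

noncomputable section

/-- the class, in terms of the window end -/
theorem H1_mem {L : Finset (ℤ × ℤ)} {F : List Dir → ℝ} {v : ℝ} {E : Finset (ℤ × ℤ)}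
    {p u l i b n : ℕ} (hb : b = p + (u + 2 * i)) (hn : n = b + l) (w : List Dir) :
    w ∈ H1 L F v E p u l i ↔ w ∈ SW n ∧ F w = v ∧ DD L 1 (p, b) w = E ∧
      (OO L 1 (p, b) w).card = i := by
  subst hb hn
  unfold H1
  rw [mem_filter]

theorem DD_sub {L : Finset (ℤ × ℤ)} {s : Fin 3} {T : ℕ × ℕ} {w : List Dir} :
    DD L s T w ⊆ L := by
  intro q hq
  unfold Pool.Agent.N929.EX.DD at hq
  exact (mem_filter.1 hq).1

theorem step (h : S_WT3) {D : Set (ℤ × ℤ)} {L : Finset (ℤ × ℤ)} (hL : CF L)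
    (hD : ∀ q ∈ L, Cs D q) {F : List Dir → ℝ} {p l : ℕ} (hF : Iv D F p l) (v : ℝ)
    (E : Finset (ℤ × ℤ)) (u i : ℕ) :
    (H1 L F v E p u l i).card * (E.card - i) =
      (H1 L F v E p u l (i + 1)).card * (i + 1) := by
  obtain ⟨f, g, hf, hg⟩ := h L hL
  obtain ⟨b, hb⟩ : ∃ b, b = p + (u + 2 * i) := ⟨_, rfl⟩
  obtain ⟨n, hn⟩ : ∃ n, n = b + l := ⟨_, rfl⟩
  have hmem := H1_mem (L := L) (F := F) (v := v) (E := E) hb hn
  have hmem' := H1_mem (L := L) (F := F) (v := v) (E := E) (p := p) (u := u)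
    (l := l) (i := i + 1) (b := b + 2) (n := n + 2) (by omega) (by omega)
  have e1 : (H1 L F v E p u l i).card * (E.card - i) =
      ((H1 L F v E p u l i).sigma (fun w => E \ OO L 1 (p, b) w)).card := by
    rw [card_sigma, Finset.sum_const_nat (m := E.card - i)]
    intro w hw
    obtain ⟨-, -, h4, h5⟩ := (hmem w).1 hw
    rw [card_sdiff_of_subset, h5]
    rw [← h4]
    exact OO_sub'
  have e2 : (H1 L F v E p u l (i + 1)).card * (i + 1) =
      ((H1 L F v E p u l (i + 1)).sigma (fun w => OO L 1 (p, b + 2) w)).card := by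
    rw [card_sigma, Finset.sum_const_nat (m := i + 1)]
    intro w hw
    obtain ⟨-, -, -, h5⟩ := (hmem' w).1 hw
    exact h5
  rw [e1, e2]
  have hpb : p ≤ b := by omega
  have hbn : b ≤ n := by omega
  refine Finset.card_nbij' (fun x => ⟨f x.1 x.2, x.2⟩) (fun x => ⟨g x.1 x.2, x.2⟩) ?_ ?_ ?_ ?_
  · rintro ⟨w, q⟩ hx
    simp only [coe_sigma, Set.mem_sigma_iff, mem_coe, mem_sdiff] at hx ⊢
    obtain ⟨hw, hp1, hp2⟩ := hx
    obtain ⟨h1, h2, h5, h7⟩ := (hmem w).1 hw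
    have hq : q ∈ DD L 1 (p, b) w := by rw [h5]; exact hp1
    obtain ⟨k, ⟨t, ht1, ht2, ht3⟩, -⟩ := hf p b n w q hpb hbn h1 hq hp2
    refine ⟨(hmem' _).2 ⟨k.sw', ?_, ?_, ?_⟩, ?_⟩
    · rw [hF n t w q (f w q) ht3 ht1 (by omega) (hD q (DD_sub hq)), h2]
    · rw [k.dd, h5]
    · rw [k.os, card_insert_of_notMem hp2, h7]
    · rw [k.os]
      exact mem_insert_self _ _
  · rintro ⟨w, q⟩ hx
    simp only [coe_sigma, Set.mem_sigma_iff, mem_coe, mem_sdiff] at hx ⊢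
    obtain ⟨hw, hp⟩ := hx
    obtain ⟨h1, h2, h5, h7⟩ := (hmem' w).1 hw
    obtain ⟨k, ⟨t, ht1, ht2, ht3⟩, -⟩ := hg p b n w q hpb hbn h1 hp
    have hE : DD L 1 (p, b) (g w q) = E := by rw [← k.dd, h5]
    refine ⟨(hmem _).2 ⟨k.sw, ?_, hE, ?_⟩, ?_, ?_⟩
    · rw [← hF n t (g w q) q w ht3 ht1 (by omega) (hD q (DD_sub k.mem)), h2]
    · have h9 := h7
      rw [k.os, card_insert_of_notMem k.nm] at h9
      omega
    · rw [← hE]
      exact k.mem
    · exact k.nm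
  · rintro ⟨w, q⟩ hx
    simp only [coe_sigma, Set.mem_sigma_iff, mem_coe, mem_sdiff] at hx ⊢
    obtain ⟨hw, hp1, hp2⟩ := hx
    obtain ⟨h1, -, h5, -⟩ := (hmem w).1 hw
    obtain ⟨-, -, k⟩ := hf p b n w q hpb hbn h1 (by rw [h5]; exact hp1) hp2
    rw [k]
  · rintro ⟨w, q⟩ hx
    simp only [coe_sigma, Set.mem_sigma_iff, mem_coe, mem_sdiff] at hx ⊢
    obtain ⟨hw, hp⟩ := hx
    obtain ⟨h1, -⟩ := (hmem' w).1 hw
    obtain ⟨-, -, k⟩ := hg p b n w q hpb hbn h1 hp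
    rw [k]

theorem cl1 (h : S_WT3) : S_CL1 := by
  intro D L hL hD F p l hF v E u i
  exact binom_of_step (fun i => (H1 L F v E p u l i).card) E.card
    (fun i => step h hL hD hF v E u i) i

end

end Pool.Agent.N9.EZ
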